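import Pool.Agent.Helper53.Comp.GoalsC

/-!
# Packet C1: the graph of a sequence of blowing ups is a tree
-/

namespace Mono

namespace Comp

open Finset

namespace C1

/-- The statement for a set of edges `E` on the vertices `0, …, n - 1`. -/
def Tree (n : ℕ) (E : Finset (ℕ × ℕ)) : Prop :=
  0 < n ∧ (∀ e ∈ E, e.1 < e.2 ∧ e.2 < n) ∧ E.card + 1 = n ∧
  (∀ S : Set ℕ, (∃ p ∈ S, p < n) → (∀ e ∈ E, e.1 ∈ S ↔ e.2 ∈ S) → ∀ p < n, p ∈ S) ∧
  ∀ r < n, ∃ f : ℕ → ℕ × ℕ, (∀ p < n, p ≠ r → f p ∈ E ∧ ((f p).1 = p ∨ (f p).2 = p)) ∧
    Set.InjOn f {p | p < n ∧ p ≠ r}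

theorem tree_start : Tree 1 ∅ := by
  refine ⟨Nat.one_pos, by simp, by simp, ?_, ?_⟩
  · rintro S ⟨p, hp, hp1⟩ - q hq
    have : q = p := by omega
    rwa [this]
  · intro r hr
    refine ⟨fun _ => (0, 0), fun p hp hpr => ?_, ?_⟩
    · omega
    · rintro p ⟨hp, hpr⟩ q ⟨hq, hqr⟩ _
      omega

theorem tree_free {n j : ℕ} {E : Finset (ℕ × ℕ)} (h : Tree n E) (hj : j < n) :
    Tree (n + 1) (insert (j, n) E) := by
  obtain ⟨h0, h1, h2, h3, h4⟩ := h
  have hn : ∀ a, (a, n) ∉ E := fun a ha => absurd (h1 _ ha).2 (lt_irrefl _)
  refine ⟨Nat.succ_pos _, ?_, ?_, ?_, ?_⟩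
  · intro e he
    rcases mem_insert.1 he with he | he
    · subst he
      exact ⟨hj, Nat.lt_succ_self _⟩
    · exact ⟨(h1 e he).1, (h1 e he).2.trans (Nat.lt_succ_self _)⟩
  · rw [card_insert_of_notMem (hn j), h2]
  · rintro S ⟨p, hp, hp1⟩ hS
    have hjn : j ∈ S ↔ n ∈ S := hS (j, n) (mem_insert_self _ _)
    have hold : ∀ e ∈ E, e.1 ∈ S ↔ e.2 ∈ S := fun e he => hS e (mem_insert_of_mem he)
    have hex : ∃ p ∈ S, p < n := by
      rcases Nat.lt_or_ge p n with h | h
      · exact ⟨p, hp, h⟩
      · have : p = n := by omega
        exact ⟨j, hjn.2 (this ▸ hp), hj⟩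
    have hall := h3 S hex hold
    intro q hq
    rcases Nat.lt_or_ge q n with h | h
    · exact hall q h
    · have : q = n := by omega
      rw [this]
      exact hjn.1 (hall j hj)
  · intro r hr
    rcases Nat.lt_or_ge r n with hrn | hrn
    · obtain ⟨f, hf1, hf2⟩ := h4 r hrn
      refine ⟨fun p => if p = n then (j, n) else f p, ?_, ?_⟩
      · intro p hp hpr
        by_cases hpn : p = n
        · simp [hpn]
        · have := hf1 p (by omega) hpr
          simp only [hpn, if_false]
          exact ⟨mem_insert_of_mem this.1, this.2⟩
      · rintro p ⟨hp, hpr⟩ q ⟨hq, hqr⟩ hpq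
        by_cases hpn : p = n <;> by_cases hqn : q = n
        · rw [hpn, hqn]
        · simp only [hpn, hqn, if_false, if_true] at hpq
          exact absurd (hpq ▸ (hf1 q (by omega) hqr).1) (hn j)
        · simp only [hpn, hqn, if_false, if_true] at hpq
          exact absurd (hpq ▸ (hf1 p (by omega) hpr).1) (hn j)
        · simp only [hpn, hqn, if_false] at hpq
          exact hf2 ⟨by omega, hpr⟩ ⟨by omega, hqr⟩ hpq
    · have hrn' : r = n := by omega
      subst hrn'
      obtain ⟨f, hf1, hf2⟩ := h4 j hj
      refine ⟨fun p => if p = j then (j, r) else f p, ?_, ?_⟩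
      · intro p hp hpr
        by_cases hpn : p = j
        · simp [hpn]
        · have := hf1 p (by omega) hpn
          simp only [hpn, if_false]
          exact ⟨mem_insert_of_mem this.1, this.2⟩
      · rintro p ⟨hp, hpr⟩ q ⟨hq, hqr⟩ hpq
        by_cases hpn : p = j <;> by_cases hqn : q = j
        · rw [hpn, hqn]
        · simp only [hpn, hqn, if_false, if_true] at hpq
          exact absurd (hpq ▸ (hf1 q (by omega) hqn).1) (hn j)
        · simp only [hpn, hqn, if_false, if_true] at hpq
          exact absurd (hpq ▸ (hf1 p (by omega) hpn).1) (hn j)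
        · simp only [hpn, hqn, if_false] at hpq
          exact hf2 ⟨by omega, hpn⟩ ⟨by omega, hqn⟩ hpq

theorem tree_cross {n i j : ℕ} {E : Finset (ℕ × ℕ)} (h : Tree n E) (hij : (i, j) ∈ E) :
    Tree (n + 1) (insert (i, n) (insert (j, n) (E.erase (i, j)))) := by
  obtain ⟨h0, h1, h2, h3, h4⟩ := h
  have hn : ∀ a, (a, n) ∉ E := fun a ha => absurd (h1 _ ha).2 (lt_irrefl _)
  have hlt : i < j := (h1 _ hij).1
  have hjn : j < n := (h1 _ hij).2
  have hin : i < n := hlt.trans hjn
  have hmem : ∀ e ∈ E, e ≠ (i, j) → e ∈ insert (i, n) (insert (j, n) (E.erase (i, j))) :=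
    fun e he hne => mem_insert_of_mem (mem_insert_of_mem (mem_erase.2 ⟨hne, he⟩))
  have hi' : (i, n) ∈ insert (i, n) (insert (j, n) (E.erase (i, j))) := mem_insert_self _ _
  have hj' : (j, n) ∈ insert (i, n) (insert (j, n) (E.erase (i, j))) :=
    mem_insert_of_mem (mem_insert_self _ _)
  refine ⟨Nat.succ_pos _, ?_, ?_, ?_, ?_⟩
  · intro e he
    rcases mem_insert.1 he with he | he
    · subst he
      exact ⟨hin, Nat.lt_succ_self _⟩
    rcases mem_insert.1 he with he | he
    · subst he
      exact ⟨hjn, Nat.lt_succ_self _⟩
    · have he' := (mem_erase.1 he).2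
      exact ⟨(h1 e he').1, (h1 e he').2.trans (Nat.lt_succ_self _)⟩
  · rw [card_insert_of_notMem, card_insert_of_notMem, card_erase_of_mem hij]
    · have : 0 < E.card := card_pos.2 ⟨_, hij⟩
      omega
    · exact fun h => hn j (mem_erase.1 h).2
    · intro h
      rcases mem_insert.1 h with h | h
      · have := congrArg Prod.fst h
        simp only at this
        omega
      · exact hn i (mem_erase.1 h).2
  · rintro S ⟨p, hp, hp1⟩ hS
    have hi : i ∈ S ↔ n ∈ S := hS (i, n) hi'
    have hj : j ∈ S ↔ n ∈ S := hS (j, n) hj'
    have hold : ∀ e ∈ E, e.1 ∈ S ↔ e.2 ∈ S := by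
      intro e he
      by_cases hne : e = (i, j)
      · rw [hne]
        exact hi.trans hj.symm
      · exact hS e (hmem e he hne)
    have hex : ∃ p ∈ S, p < n := by
      rcases Nat.lt_or_ge p n with h | h
      · exact ⟨p, hp, h⟩
      · have : p = n := by omega
        exact ⟨j, hj.2 (this ▸ hp), hjn⟩
    have hall := h3 S hex hold
    intro q hq
    rcases Nat.lt_or_ge q n with h | h
    · exact hall q h
    · have : q = n := by omega
      rw [this]
      exact hj.1 (hall j hjn)
  · intro r hr
    rcases Nat.lt_or_ge r n with hrn | hrn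
    · obtain ⟨f, hf1, hf2⟩ := h4 r hrn
      have hend : ∀ p < n, p ≠ r → f p = (i, j) → p = i ∨ p = j := by
        intro p hp hpr hfp
        have := (hf1 p hp hpr).2
        rw [hfp] at this
        simp only at this
        omega
      refine ⟨fun p => if p = n then (if f i = (i, j) ∧ i ≠ r then (j, n) else (i, n)) else
        if f p = (i, j) then (p, n) else f p, ?_, ?_⟩
      · intro p hp hpr
        by_cases hpn : p = n
        · simp only [hpn, if_true]
          split_ifs with hc
          · exact ⟨hj', Or.inr rfl⟩
          · exact ⟨hi', Or.inr rfl⟩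
        · simp only [hpn, if_false]
          split_ifs with hc
          · rcases hend p (by omega) hpr hc with h | h
            · rw [h]
              exact ⟨hi', Or.inl rfl⟩
            · rw [h]
              exact ⟨hj', Or.inl rfl⟩
          · have := hf1 p (by omega) hpr
            exact ⟨hmem _ this.1 hc, this.2⟩
      · have key : ∀ p < n, p ≠ r → (if f i = (i, j) ∧ i ≠ r then (j, n) else (i, n)) ≠
            (if f p = (i, j) then (p, n) else f p) := by
          intro p hp hpr heq
          by_cases hc : f p = (i, j)
          · rw [if_pos hc] at heq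
            rcases hend p hp hpr hc with h | h
            · subst h
              rw [if_pos ⟨hc, hpr⟩] at heq
              have := congrArg Prod.fst heq
              simp only at this
              omega
            · subst h
              have hne : ¬ (f i = (i, p) ∧ i ≠ r) := by
                rintro ⟨ha, hb⟩
                have : i = p := hf2 ⟨hin, hb⟩ ⟨hp, hpr⟩ (ha.trans hc.symm)
                omega
              rw [if_neg hne] at heq
              have := congrArg Prod.fst heq
              simp only at this
              omega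
          · rw [if_neg hc] at heq
            have hfp := (hf1 p hp hpr).1
            rw [← heq] at hfp
            split_ifs at hfp
            · exact hn j hfp
            · exact hn i hfp
        rintro p ⟨hp, hpr⟩ q ⟨hq, hqr⟩ hpq
        by_cases hpn : p = n <;> by_cases hqn : q = n
        · rw [hpn, hqn]
        · simp only [hpn, hqn, if_false, if_true] at hpq
          exact (key q (by omega) hqr hpq).elim
        · simp only [hpn, hqn, if_false, if_true] at hpq
          exact (key p (by omega) hpr hpq.symm).elim
        · simp only [hpn, hqn, if_false] at hpq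
          have hp' : p < n := by omega
          have hq' : q < n := by omega
          by_cases hcp : f p = (i, j) <;> by_cases hcq : f q = (i, j)
          · exact hf2 ⟨hp', hpr⟩ ⟨hq', hqr⟩ (hcp.trans hcq.symm)
          · rw [if_pos hcp, if_neg hcq] at hpq
            exact absurd (hpq ▸ (hf1 q hq' hqr).1) (hn p)
          · rw [if_neg hcp, if_pos hcq] at hpq
            exact absurd (hpq ▸ (hf1 p hp' hpr).1) (hn q)
          · rw [if_neg hcp, if_neg hcq] at hpq
            exact hf2 ⟨hp', hpr⟩ ⟨hq', hqr⟩ hpq
    · have hrn' : r = n := by omega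
      subst hrn'
      obtain ⟨f, hf1, hf2⟩ := h4 i hin
      have hend : ∀ p < r, p ≠ i → p ≠ j → f p ≠ (i, j) := by
        intro p hp hpi hpj hfp
        have := (hf1 p hp hpi).2
        rw [hfp] at this
        simp only at this
        omega
      refine ⟨fun p => if p = i then (i, r) else if p = j then (j, r) else f p, ?_, ?_⟩
      · intro p hp hpr
        by_cases hpi : p = i
        · simp only [hpi, if_true]
          exact ⟨hi', Or.inl trivial⟩
        by_cases hpj : p = j
        · have hji : j ≠ i := by omega
          simp only [hpj, hji, if_true, if_false]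
          exact ⟨hj', Or.inl trivial⟩
        · simp only [hpi, hpj, if_false]
          have := hf1 p (by omega) hpi
          exact ⟨hmem _ this.1 (hend p (by omega) hpi hpj), this.2⟩
      · rintro p ⟨hp, hpr⟩ q ⟨hq, hqr⟩ hpq
        have hp' : p < r := by omega
        have hq' : q < r := by omega
        simp only at hpq
        by_cases hpi : p = i
        · by_cases hqi : q = i
          · rw [hpi, hqi]
          · rw [if_pos hpi, if_neg hqi] at hpq
            by_cases hqj : q = j
            · rw [if_pos hqj] at hpq
              have := congrArg Prod.fst hpq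
              simp only at this
              omega
            · rw [if_neg hqj] at hpq
              exact absurd (hpq ▸ (hf1 q hq' hqi).1) (hn i)
        · rw [if_neg hpi] at hpq
          by_cases hpj : p = j
          · rw [if_pos hpj] at hpq
            by_cases hqi : q = i
            · rw [if_pos hqi] at hpq
              have := congrArg Prod.fst hpq
              simp only at this
              omega
            · rw [if_neg hqi] at hpq
              by_cases hqj : q = j
              · rw [hpj, hqj]
              · rw [if_neg hqj] at hpq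
                exact absurd (hpq ▸ (hf1 q hq' hqi).1) (hn j)
          · rw [if_neg hpj] at hpq
            by_cases hqi : q = i
            · rw [if_pos hqi] at hpq
              exact absurd (hpq ▸ (hf1 p hp' hpi).1) (hn i)
            · rw [if_neg hqi] at hpq
              by_cases hqj : q = j
              · rw [if_pos hqj] at hpq
                exact absurd (hpq ▸ (hf1 p hp' hpi).1) (hn j)
              · rw [if_neg hqj] at hpq
                exact hf2 ⟨hp', hpi⟩ ⟨hq', hqi⟩ hpq

theorem tree_blow {G : Graph} (h : Blow G) : Tree G.size G.E := by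
  induction h with
  | start m hm => exact tree_start
  | free G j m _ hj _ _ ih => exact tree_free ih hj
  | cross G i j m _ hij _ _ _ ih => exact tree_cross ih hij

end C1

theorem blowTree : BlowTree := fun _ h => C1.tree_blow h

end Comp

end Mono
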