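import Pool.Agent.Helper53.Comp.GoalsG

/-!
# Packet G6: Möbius inversion
-/

namespace Mono

namespace Comp

open Finset Filter Topology

namespace G6

theorem pos_of_mem {k : ℕ} {e d : Fin k → ℕ} (he : ∀ i, 0 < e i)
    (hd : d ∈ Fintype.piFinset (fun i => (e i).divisors)) (i : Fin k) : 0 < d i :=
  Nat.pos_of_mem_divisors (Fintype.mem_piFinset.1 hd i)

theorem apex (hVH : VolHeight) (k : ℕ) (e : Fin k → ℕ) (V : Finset (Fin k))
    (hV : ∀ i, i ∉ V → e i = 1) : ApexInv V (vE e) := by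
  intro τ p i hi hτ hp
  unfold vE
  refine sum_congr rfl fun d hd => ?_
  congr 1
  unfold vG
  have hdi : d i = 1 := by
    have := Fintype.mem_piFinset.1 hd i
    rw [hV i hi] at this
    simpa using this
  rw [image_insert]
  congr 2
  refine hVH k _ _ i ?_ ?_
  · intro u hu
    obtain ⟨u', hu', rfl⟩ := mem_image.1 hu
    simp [hτ u' hu']
  · simp [hdi, hp]

theorem wterm_sum {k : ℕ} {ι : Type} (I : Finset ι) (c : ι → ℝ)
    (v : ι → Finset (Fin k → ℤ) → ℝ) (Z F : Finset (Fin k → ℤ)) (s : ℝ) (w : Fin k → ℝ) :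
    WtermR (fun τ => ∑ d ∈ I, c d * v d τ) Z F s w = ∑ d ∈ I, c d * WtermR (v d) Z F s w := by
  unfold WtermR
  simp only [mul_sum, sum_div]
  rw [sum_comm]
  refine sum_congr rfl fun d _ => sum_congr rfl fun τ _ => ?_
  ring

theorem wr_sum {k : ℕ} {ι : Type} (I : Finset ι) (c : ι → ℝ) (Φ : Fan k)
    (v : ι → Finset (Fin k → ℤ) → ℝ) (Z : Finset (Fin k → ℤ)) (s : ℝ) (w : Fin k → ℝ) :
    WR Φ (fun τ => ∑ d ∈ I, c d * v d τ) Z s w = ∑ d ∈ I, c d * WR Φ (v d) Z s w := by
  unfold WR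
  simp only [wterm_sum, mul_sum]
  rw [sum_comm]

theorem dds_sum {k : ℕ} {ι : Type} (I : Finset ι) (c : ι → ℝ) (S : Fin k → Finset ℝ)
    (h : ι → (Fin k → ℝ) → ℝ) :
    DDS S (fun x => ∑ d ∈ I, c d * h d x) = ∑ d ∈ I, c d * DDS S (h d) := by
  unfold DDS
  simp only [mul_sum]
  rw [sum_comm]
  refine sum_congr rfl fun d _ => sum_congr rfl fun x _ => ?_
  ring

theorem ext_sum (k : ℕ) (Z : Finset (Fin k → ℤ)) (Φ : Fan k) (s : ℝ)
    (F : (Fin k → ℕ) → (Fin k → Multiset ℝ) → ℝ)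
    (hF : ∀ D, (∀ i, 0 < D i) → Ext Φ (WR Φ (vG D) Z s) (F D))
    (e : Fin k → ℕ) (he : ∀ i, 0 < e i) : Ext Φ (WR Φ (vE e) Z s) (FE F e) := by
  constructor
  · intro n blk ρ θ hblk hρ
    unfold FE
    refine tendsto_finsetSum _ fun d hd => ?_
    exact ((hF d (pos_of_mem he hd)).1 n blk ρ θ hblk hρ).const_mul _
  · intro S hS hpos hgen
    have h1 : WR Φ (vE e) Z s = fun w => ∑ d ∈ Fintype.piFinset (fun i => (e i).divisors),
        (∏ i, ((ArithmeticFunction.moebius (e i / d i) : ℤ) : ℝ)) * WR Φ (vG d) Z s w := by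
      funext w
      exact wr_sum _ _ Φ _ Z s w
    rw [h1, dds_sum]
    unfold FE
    refine sum_congr rfl fun d hd => ?_
    rw [(hF d (pos_of_mem he hd)).2 S hS hpos hgen]

theorem moebius_one {d D : ℕ} (hD : 0 < D) (hd : d ∣ D) :
    ∑ e ∈ D.divisors, (if d ∣ e then ((ArithmeticFunction.moebius (e / d) : ℤ) : ℝ) else 0) =
      if D = d then 1 else 0 := by
  obtain ⟨m, rfl⟩ := hd
  have hd0 : 0 < d := Nat.pos_of_mul_pos_right hD |> fun h => h
  have hm0 : 0 < m := Nat.pos_of_ne_zero (by rintro rfl; simp at hD)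
  rw [← sum_filter]
  have h1 : ∑ e ∈ (d * m).divisors.filter (fun e => d ∣ e),
      ((ArithmeticFunction.moebius (e / d) : ℤ) : ℝ) =
      ∑ x ∈ m.divisors, ((ArithmeticFunction.moebius x : ℤ) : ℝ) := by
    refine (sum_bij (fun x _ => d * x) ?_ ?_ ?_ ?_).symm
    · intro x hx
      rw [mem_filter, Nat.mem_divisors]
      exact ⟨⟨mul_dvd_mul_left d (Nat.dvd_of_mem_divisors hx), hD.ne'⟩, dvd_mul_right _ _⟩
    · intro x _ y _ hxy
      exact Nat.eq_of_mul_eq_mul_left hd0 hxy
    · intro e he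
      rw [mem_filter, Nat.mem_divisors] at he
      obtain ⟨x, rfl⟩ := he.2
      exact ⟨x, Nat.mem_divisors.2 ⟨Nat.dvd_of_mul_dvd_mul_left hd0 he.1.1, hm0.ne'⟩, rfl⟩
    · intro x _
      rw [Nat.mul_div_cancel_left _ hd0]
  rw [h1]
  have h2 : ∑ x ∈ m.divisors, ArithmeticFunction.moebius x = if m = 1 then 1 else 0 := by
    rw [← ArithmeticFunction.coe_mul_zeta_apply, ArithmeticFunction.moebius_mul_coe_zeta,
      ArithmeticFunction.one_apply]
  have h3 : (d * m = d) ↔ m = 1 := by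
    constructor
    · intro h
      exact Nat.eq_of_mul_eq_mul_left hd0 (by rw [h, mul_one])
    · rintro rfl
      exact mul_one d
  rw [← Int.cast_sum, h2]
  by_cases hm : m = 1
  · rw [if_pos hm, if_pos (h3.2 hm)]
    simp
  · rw [if_neg hm, if_neg (fun h => hm (h3.1 h))]
    simp

theorem prod_ite_all {k : ℕ} (p : Fin k → Prop) [DecidablePred p] (f : Fin k → ℝ) :
    (∏ i, if p i then f i else 0) = if ∀ i, p i then ∏ i, f i else 0 := by
  by_cases h : ∀ i, p i
  · rw [if_pos h]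
    exact prod_congr rfl fun i _ => if_pos (h i)
  · rw [if_neg h]
    push Not at h
    obtain ⟨i, hi⟩ := h
    exact prod_eq_zero (mem_univ i) (if_neg hi)

theorem inversion (k : ℕ) (F : (Fin k → ℕ) → (Fin k → Multiset ℝ) → ℝ) (D : Fin k → ℕ)
    (hD : ∀ i, 0 < D i) (M : Fin k → Multiset ℝ) :
    F D M = ∑ e ∈ Fintype.piFinset (fun i => (D i).divisors), FE F e M := by
  have h1 : ∀ e ∈ Fintype.piFinset (fun i => (D i).divisors), FE F e M =
      ∑ d ∈ Fintype.piFinset (fun i => (D i).divisors),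
        (∏ i, if d i ∣ e i then ((ArithmeticFunction.moebius (e i / d i) : ℤ) : ℝ) else 0) *
          F d M := by
    intro e he
    unfold FE
    have hsub : Fintype.piFinset (fun i => (e i).divisors) ⊆
        Fintype.piFinset (fun i => (D i).divisors) := by
      intro d hd
      rw [Fintype.mem_piFinset] at hd he ⊢
      intro i
      exact Nat.mem_divisors.2 ⟨(Nat.dvd_of_mem_divisors (hd i)).trans
        (Nat.dvd_of_mem_divisors (he i)), (hD i).ne'⟩
    rw [← sum_subset hsub]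
    · refine sum_congr rfl fun d hd => ?_
      congr 1
      refine prod_congr rfl fun i _ => ?_
      rw [if_pos (Nat.dvd_of_mem_divisors (Fintype.mem_piFinset.1 hd i))]
    · intro d _ hd
      rw [prod_ite_all, if_neg, zero_mul]
      intro hall
      refine hd (Fintype.mem_piFinset.2 fun i => Nat.mem_divisors.2 ⟨hall i, ?_⟩)
      exact (Nat.pos_of_mem_divisors (Fintype.mem_piFinset.1 he i)).ne'
  rw [sum_congr rfl h1, sum_comm]
  have h2 : ∀ d ∈ Fintype.piFinset (fun i => (D i).divisors),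
      ∑ e ∈ Fintype.piFinset (fun i => (D i).divisors),
        (∏ i, if d i ∣ e i then ((ArithmeticFunction.moebius (e i / d i) : ℤ) : ℝ) else 0) *
          F d M = if d = D then F d M else 0 := by
    intro d hd
    rw [← sum_mul, ← prod_univ_sum (fun i => (D i).divisors) (fun i x => if d i ∣ x then
      ((ArithmeticFunction.moebius (x / d i) : ℤ) : ℝ) else 0)]
    have h3 : ∀ i, ∑ x ∈ (D i).divisors, (if d i ∣ x then
        ((ArithmeticFunction.moebius (x / d i) : ℤ) : ℝ) else 0) = if D i = d i then 1 else 0 :=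
      fun i => moebius_one (hD i) (Nat.dvd_of_mem_divisors (Fintype.mem_piFinset.1 hd i))
    rw [prod_congr rfl fun i _ => h3 i, prod_ite_all]
    by_cases h : d = D
    · rw [if_pos h, if_pos (fun i => by rw [h])]
      simp
    · rw [if_neg h, if_neg (fun h' => h (funext fun i => (h' i).symm)), zero_mul]
  rw [sum_congr rfl h2, sum_ite_eq' , if_pos]
  exact Fintype.mem_piFinset.2 fun i => Nat.mem_divisors_self _ (hD i).ne'

end G6

theorem moebiusV (hVH : VolHeight) : Moebius :=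
  ⟨fun k e V _ hV => G6.apex hVH k e V hV, fun k Z Φ s F hF e he => G6.ext_sum k Z Φ s F hF e he,
    fun k F D hD M => G6.inversion k F D hD M⟩

end Comp

end Mono
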